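import Pool.Agent.H56.FF.Final
import Pool.Agent.H56.FF.Radiant

/-! MP_a23b61_an: on a compact affine surface with a fan field all but countably many directions
are hyperbolic. (Radiant surfaces have a fan field: `radiant_fan` in H56/FF/Radiant.) -/

namespace Pool.Agent.Results.MP_a23b61_an.FanFields

open Pool.Agent.H56.AS Pool.Agent.H56.FF

theorem result {X : Type*} [TopologicalSpace X] [CompactSpace X] [T2Space X]
    (A : AffineSurface X) (D : X → ℂ) (hD : FanField A D) :
    {v : ℂ | ‖v‖ = 1 ∧ ¬ HyperbolicDir A v}.Countable :=
  countable_nonhyperbolic_fan A D hD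

end Pool.Agent.Results.MP_a23b61_an.FanFields
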